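import Pool.Agent.Helper7_BEL.GalB

/-!
# Squad BEL, row GAL: the linearized Galerkin flow (helper7)
-/

set_option autoImplicit false

namespace Pool.Agent.BEL.H7

open MeasureTheory Filter Topology Set
open scoped InnerProductSpace ENNReal

noncomputable section

section
variable {X : Type} [MeasurableSpace X] {μ : Measure X} {κ : Type}

theorem coe_sum (b : κ → Lp ℝ 2 μ) (c : κ → ℝ) (J : Finset κ) :
    ∀ᵐ x ∂μ, (∑ j ∈ J, c j • b j : Lp ℝ 2 μ) x = ∑ j ∈ J, c j * b j x := by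
  classical
  induction J using Finset.induction_on with
  | empty =>
    rw [Finset.sum_empty]
    filter_upwards [Lp.coeFn_zero ℝ 2 μ] with x hx
    rw [hx, Finset.sum_empty]
    rfl
  | insert j J hj ih =>
    rw [Finset.sum_insert hj]
    filter_upwards [ih, Lp.coeFn_add (c j • b j) (∑ j ∈ J, c j • b j), Lp.coeFn_smul (c j) (b j)]
      with x h1 h2 h3
    rw [h2, Pi.add_apply, h1, h3, Finset.sum_insert hj]
    rfl

/-- the pointwise bound for elements of `P_J H` -/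
theorem pt_bound (hGpk : GpkStmt) (b : HilbertBasis κ ℝ (Lp ℝ 2 μ)) (om : κ → ℝ)
    (W : ℝ → KK (Lp ℝ 2 μ) →L[ℝ] KK (Lp ℝ 2 μ)) (hW : Grp b om W) (J : Finset κ) (A : ℝ)
    (_ : 0 ≤ A) (hJ : ∀ᵐ x ∂μ, ∑ j ∈ J, (b j x) ^ 2 ≤ A) (u : Lp ℝ 2 μ) (hu : PJ b J u = u) :
    ∀ᵐ x ∂μ, (u x) ^ 2 ≤ A * ‖u‖ ^ 2 := by
  obtain ⟨-, -, -, -, -, -, -, -, g9, -⟩ := hGpk (Lp ℝ 2 μ) κ b om W hW
  have h1 := g9 J u
  rw [hu, sub_self, norm_zero] at h1
  have h2 : ∑ j ∈ J, ⟪b j, u⟫_ℝ ^ 2 = ‖u‖ ^ 2 := by linarith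
  have h3 := coe_sum (fun j => b j) (fun j => ⟪b j, u⟫_ℝ) J
  rw [← PJ_apply, hu] at h3
  filter_upwards [h3, hJ] with x h4 h5
  rw [h4]
  refine (Finset.sum_mul_sq_le_sq_mul_sq J _ _).trans ?_
  rw [h2, mul_comm A]
  exact mul_le_mul_of_nonneg_left h5 (sq_nonneg _)

end

/-- GAL -/
theorem gal (hGpk : GpkStmt) (hGrq : GrqStmt) (hMlp : MlpStmt) (hCgl : CglStmt)
    (hCtj : CtjStmt) (hFun : FunStmt) : GalStmt := by
  intro X _ μ _ κ b om W J A a al M v hW ha hal hM hA _ hJ hv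
  obtain ⟨gc, g0, gM, -⟩ := (hCgl a al 0 ha hal le_rfl).2.2.2.2.2.2.2.2.2.2.2.2.2.2 M hM
  have hGpk' := hGpk
  obtain ⟨p1, p2, -, -, p5, -, -, -, -, p10⟩ := hGpk (Lp ℝ 2 μ) κ b om W hW
  obtain ⟨q0, -, q3, hadj, q5, -, hinj, -⟩ := hGrq (Lp ℝ 2 μ) κ b om W hW
  -- the multiplication operators
  have hmeas : ∀ t, Measurable (cfv μ a al M (v t)) := fun t =>
    gc.measurable.comp (Lp.stronglyMeasurable (v t)).measurable
  have habs : ∀ t x, |cfv μ a al M (v t) x| ≤ M := by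
    intro t x
    unfold cfv
    rw [abs_of_nonneg (g0 _)]
    exact gM _
  have hml : ∀ t, _ := fun t => hMlp X μ (cfv μ a al M (v t)) M (hmeas t) (habs t)
  have hT : ∀ t, ∃ T : Lp ℝ 2 μ →L[ℝ] Lp ℝ 2 μ, ∀ u, T u = ml μ (cfv μ a al M (v t)) u :=
    fun t => (hml t).2.2.2.2.2
  choose T hT' using hT
  have hTi : ∀ t (u w : Lp ℝ 2 μ), ⟪T t u, w⟫_ℝ = ∫ x, cf a al M (v t x) * u x * w x ∂μ := by
    intro t u w
    rw [hT']
    exact (hml t).2.2.2.2.1 u w
  -- the isometry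
  have hcard : Fintype.card (Fin (2 * J.card)) = Fintype.card (J ⊕ J) := by
    rw [Fintype.card_fin, Fintype.card_sum, Fintype.card_coe]
    ring
  obtain ⟨σ⟩ : Nonempty (Fin (2 * J.card) ≃ J ⊕ J) := ⟨Fintype.equivOfCardEq hcard⟩
  -- velocities of the elements of the space
  have hPJ : ∀ t x, PJ b J (P2 (W t (ee b J σ x))) = P2 (W t (ee b J σ x)) := by
    intro t x
    rw [← p2, p1, PK_ee]
  have hnorm : ∀ t x, ‖P2 (W t (ee b J σ x))‖ ≤ ‖x‖ := by
    intro t x
    refine (p10 _).1.trans ?_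
    rw [q3, (ee b J σ).norm_map]
  have hbd : ∀ t x, ∀ᵐ y ∂μ, (P2 (W t (ee b J σ x)) y) ^ 2 ≤ A * ‖x‖ ^ 2 := by
    intro t x
    filter_upwards [pt_bound hGpk' b om W hW J A hA hJ _ (hPJ t x)] with y hy
    refine hy.trans (mul_le_mul_of_nonneg_left ?_ hA)
    exact pow_le_pow_left₀ (norm_nonneg _) (hnorm t x) 2
  obtain ⟨B, hB⟩ : ∃ B : ℝ → EuclideanSpace ℝ (Fin (2 * J.card)) →L[ℝ]
      EuclideanSpace ℝ (Fin (2 * J.card)), B = fun t => Bt b J σ W (T t) t := ⟨_, rfl⟩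
  have hBi : ∀ t x y, ⟪B t x, y⟫_ℝ =
      ∫ z, cf a al M (v t z) * P2 (W t (ee b J σ x)) z * P2 (W t (ee b J σ y)) z ∂μ := by
    intro t x y
    rw [hB]
    change ⟪Bt b J σ W (T t) t x, y⟫_ℝ = _
    rw [Bt_inner b J σ W (T t) t hadj hinj, hTi]
  have hsym : ∀ t x y, ⟪B t x, y⟫_ℝ = ⟪x, B t y⟫_ℝ := by
    intro t x y
    rw [real_inner_comm (B t y) x, hBi, hBi]
    refine integral_congr_ae (Eventually.of_forall fun z => ?_)
    change _ * _ * _ = _ * _ * _
    ring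
  have hpos : ∀ t x, 0 ≤ ⟪B t x, x⟫_ℝ := by
    intro t x
    rw [hBi]
    refine integral_nonneg fun z => ?_
    change 0 ≤ _ * _ * _
    rw [mul_assoc]
    exact mul_nonneg (g0 _) (mul_self_nonneg _)
  have hquad : ∀ x, Continuous fun t => ⟪B t x, x⟫_ℝ := by
    intro x
    have hR : 0 ≤ A * ‖x‖ ^ 2 := mul_nonneg hA (sq_nonneg _)
    have h1 := hCtj X μ (fun p q => min (p ^ 2) (A * ‖x‖ ^ 2) * cf a al M q)
      (A * ‖x‖ ^ 2 * M) (by
        refine Continuous.mul ?_ (gc.comp continuous_snd)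
        exact (continuous_fst.pow 2).min continuous_const) (by
        intro p q
        rw [abs_of_nonneg (mul_nonneg (le_min (sq_nonneg _) hR) (g0 _))]
        exact mul_le_mul (min_le_right _ _) (gM _) (g0 _) hR)
      (fun t => P2 (W t (ee b J σ x))) v (P2.continuous.comp (q5 _)) hv
    refine h1.congr fun t => ?_
    rw [hBi]
    refine integral_congr_ae ?_
    filter_upwards [hbd t x] with z hz
    rw [min_eq_left hz]
    ring
  have hBc : Continuous B := continuous_of_quad B hsym hquad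
  obtain ⟨Φ, f0, f1, f2, f3⟩ := hFun _ B hBc hsym hpos
  -- the trace
  have htr : ∀ t, LinearMap.trace ℝ (EuclideanSpace ℝ (Fin (2 * J.card)))
      (B t : EuclideanSpace ℝ (Fin (2 * J.card)) →ₗ[ℝ] EuclideanSpace ℝ (Fin (2 * J.card))) =
      ∑ j ∈ J, ∫ z, cf a al M (v t z) * b j z * b j z ∂μ := by
    intro t
    rw [hB]
    change LinearMap.trace ℝ (EuclideanSpace ℝ (Fin (2 * J.card)))
      (Bt b J σ W (T t) t : EuclideanSpace ℝ (Fin (2 * J.card)) →ₗ[ℝ]
        EuclideanSpace ℝ (Fin (2 * J.card))) = _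
    rw [Bt_trace b om J σ W (T t) t hW hadj hinj]
    exact Finset.sum_congr rfl fun j _ => hTi t _ _
  have hmeas' : ∀ t, AEStronglyMeasurable (fun z => cf a al M (v t z)) μ := fun t =>
    (hmeas t).aestronglyMeasurable
  have hnb : ∀ t, ∀ᵐ z ∂μ, ‖cf a al M (v t z)‖ ≤ M := fun t =>
    Eventually.of_forall fun z => by
      rw [Real.norm_eq_abs]
      exact habs t z
  have hint1 : ∀ t, Integrable (fun z => cf a al M (v t z)) μ := by
    intro t
    have h := (integrable_const (1 : ℝ) (μ := μ)).bdd_mul (hmeas' t) (hnb t)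
    simpa using h
  have hint : ∀ t j, Integrable (fun z => cf a al M (v t z) * b j z * b j z) μ := by
    intro t j
    have h := ((Lp.memLp (b j)).integrable_sq).bdd_mul (hmeas' t) (hnb t)
    refine h.congr (Eventually.of_forall fun z => ?_)
    change _ * _ ^ 2 = _ * _ * _
    ring
  have htrle : ∀ t, LinearMap.trace ℝ (EuclideanSpace ℝ (Fin (2 * J.card)))
      (B t : EuclideanSpace ℝ (Fin (2 * J.card)) →ₗ[ℝ] EuclideanSpace ℝ (Fin (2 * J.card))) ≤
      A * ∫ z, cf a al M (v t z) ∂μ := by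
    intro t
    rw [htr, ← integral_finsetSum J fun j _ => hint t j, ← integral_const_mul]
    refine integral_mono_ae (integrable_finsetSum J fun j _ => hint t j)
      ((hint1 t).const_mul A) ?_
    filter_upwards [hJ] with z hz
    have h1 : ∑ j ∈ J, cf a al M (v t z) * b j z * b j z =
        cf a al M (v t z) * ∑ j ∈ J, (b j z) ^ 2 := by
      rw [Finset.mul_sum]
      refine Finset.sum_congr rfl fun j _ => ?_
      ring
    rw [h1, mul_comm A]
    exact mul_le_mul_of_nonneg_left hz (g0 _)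
  have htrc : Continuous fun t => LinearMap.trace ℝ (EuclideanSpace ℝ (Fin (2 * J.card)))
      (B t : EuclideanSpace ℝ (Fin (2 * J.card)) →ₗ[ℝ]
        EuclideanSpace ℝ (Fin (2 * J.card))) := by
    have h1 : (fun t => LinearMap.trace ℝ (EuclideanSpace ℝ (Fin (2 * J.card)))
      (B t : EuclideanSpace ℝ (Fin (2 * J.card)) →ₗ[ℝ] EuclideanSpace ℝ (Fin (2 * J.card)))) =
      fun t => ∑ k, ⟪EuclideanSpace.basisFun (Fin (2 * J.card)) ℝ k,
        B t (EuclideanSpace.basisFun (Fin (2 * J.card)) ℝ k)⟫_ℝ := by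
      funext t
      exact LinearMap.trace_eq_sum_inner _ (EuclideanSpace.basisFun (Fin (2 * J.card)) ℝ)
    rw [h1]
    refine continuous_finsetSum _ fun k _ => ?_
    exact continuous_const.inner ((continuous_clm_apply.1 hBc) _)
  have hcfc : Continuous fun t => ∫ z, cf a al M (v t z) ∂μ :=
    hCtj X μ (fun _ q => cf a al M q) M (gc.comp continuous_snd) (fun p q => by
      rw [abs_of_nonneg (g0 _)]
      exact gM _) v v hv hv
  refine ⟨ee b J σ, Φ, ⟨fun z => ee_range b J σ z, fun c => f0 c, ?_, ?_, ?_⟩, ?_⟩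
  · intro c t
    have h1 := (ee b J σ).toContinuousLinearMap.hasFDerivAt.comp_hasDerivAt t (f1 c t)
    have h2 : (ee b J σ).toContinuousLinearMap (-(B t (Φ t c))) =
        -(PK b J (W (-t) (inj (ml μ (cfv μ a al M (v t)) (P2 (W t (ee b J σ (Φ t c)))))))) := by
      rw [map_neg, hB, ← hT']
      change -(ee b J σ (Bt b J σ W (T t) t (Φ t c))) = _
      rw [ee_Bt]
    rw [h2] at h1
    exact h1
  · intro c s t hst
    exact f3 c s t hst
  · intro t
    rw [f2]
    exact Real.exp_pos _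
  · intro s t hst
    rw [f2, f2, Real.log_exp, Real.log_exp]
    have h1 : ∀ u w : ℝ, IntervalIntegrable (fun r =>
        LinearMap.trace ℝ (EuclideanSpace ℝ (Fin (2 * J.card)))
        (B r : EuclideanSpace ℝ (Fin (2 * J.card)) →ₗ[ℝ]
          EuclideanSpace ℝ (Fin (2 * J.card)))) volume u w :=
      fun u w => htrc.intervalIntegrable u w
    have h2 := intervalIntegral.integral_interval_sub_left (h1 0 t) (h1 0 s)
    have h3 : ∫ r in s..t, LinearMap.trace ℝ (EuclideanSpace ℝ (Fin (2 * J.card)))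
        (B r : EuclideanSpace ℝ (Fin (2 * J.card)) →ₗ[ℝ]
          EuclideanSpace ℝ (Fin (2 * J.card))) ≤
        ∫ r in s..t, A * ∫ z, cf a al M (v r z) ∂μ := by
      refine intervalIntegral.integral_mono_on hst (h1 s t)
        ((hcfc.const_mul A).intervalIntegrable s t) fun r _ => htrle r
    rw [intervalIntegral.integral_const_mul] at h3
    linarith

end

end Pool.Agent.BEL.H7
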