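import Pool.Agent.BEL.StmtsC

/-!
# Squad BEL, row GAL, part A: the isometry onto `P_J H × P_J H` (helper7)
-/

set_option autoImplicit false

namespace Pool.Agent.BEL.H7

open MeasureTheory Filter Topology Set
open scoped InnerProductSpace ENNReal

noncomputable section

section
variable {H : Type} [NormedAddCommGroup H] [InnerProductSpace ℝ H] {κ : Type}

/-- `h ↦ (h, 0)` -/
def inj1 (h : H) : KK H := (WithLp.prodContinuousLinearEquiv 2 ℝ H H).symm (h, 0)

theorem kkext {z w : KK H} (h1 : P1 z = P1 w) (h2 : P2 z = P2 w) : z = w := by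
  apply (WithLp.prodContinuousLinearEquiv 2 ℝ H H).injective
  exact Prod.ext h1 h2

theorem kkinner (z w : KK H) : ⟪z, w⟫_ℝ = ⟪P1 z, P1 w⟫_ℝ + ⟪P2 z, P2 w⟫_ℝ := rfl

theorem P1_inj1 (h : H) : P1 (inj1 h) = h := rfl

theorem P2_inj1 (h : H) : P2 (inj1 h) = 0 := rfl

theorem P1_inj (h : H) : P1 (inj h) = 0 := rfl

theorem P2_inj (h : H) : P2 (inj h) = h := rfl

theorem P1_PK (b : HilbertBasis κ ℝ H) (J : Finset κ) (z : KK H) :
    P1 (PK b J z) = PJ b J (P1 z) := rfl

theorem P2_PK (b : HilbertBasis κ ℝ H) (J : Finset κ) (z : KK H) :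
    P2 (PK b J z) = PJ b J (P2 z) := rfl

theorem PJ_apply (b : HilbertBasis κ ℝ H) (J : Finset κ) (v : H) :
    PJ b J v = ∑ j ∈ J, ⟪b j, v⟫_ℝ • b j := by
  unfold PJ
  rw [_root_.sum_apply]
  rfl

/-- an element is determined by its coordinates -/
theorem eq_of_coord (b : HilbertBasis κ ℝ H) {x y : H} (h : ∀ j, ⟪b j, x⟫_ℝ = ⟪b j, y⟫_ℝ) :
    x = y := by
  apply b.repr.injective
  ext j
  rw [b.repr_apply_apply, b.repr_apply_apply]
  exact h j

/-- the orthonormal basis of `P_J H × P_J H` -/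
def ff (b : HilbertBasis κ ℝ H) (J : Finset κ) : J ⊕ J → KK H :=
  Sum.elim (fun j => inj1 (b j)) (fun j => inj (b j))

theorem binner (b : HilbertBasis κ ℝ H) (i j : κ) [Decidable (i = j)] :
    ⟪b i, b j⟫_ℝ = if i = j then 1 else 0 := by
  by_cases h : i = j
  · subst h
    rw [if_pos rfl, real_inner_self_eq_norm_sq, b.orthonormal.1 i]
    norm_num
  · rw [if_neg h]
    exact b.orthonormal.2 h

theorem ff_orth (b : HilbertBasis κ ℝ H) (J : Finset κ) : Orthonormal ℝ (ff b J) := by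
  classical
  constructor
  · rintro (i | i)
    · have h : ‖(inj1 (b i) : KK H)‖ ^ 2 = 1 := by
        rw [← real_inner_self_eq_norm_sq, kkinner, P1_inj1, P2_inj1, inner_zero_left, add_zero,
          real_inner_self_eq_norm_sq, b.orthonormal.1]
        norm_num
      have h2 : 0 ≤ ‖(inj1 (b i) : KK H)‖ := norm_nonneg _
      change ‖(inj1 (b i) : KK H)‖ = 1
      nlinarith
    · have h : ‖(inj (b i) : KK H)‖ ^ 2 = 1 := by
        rw [← real_inner_self_eq_norm_sq, kkinner, P1_inj, P2_inj, inner_zero_left, zero_add,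
          real_inner_self_eq_norm_sq, b.orthonormal.1]
        norm_num
      have h2 : 0 ≤ ‖(inj (b i) : KK H)‖ := norm_nonneg _
      change ‖(inj (b i) : KK H)‖ = 1
      nlinarith
  · rintro (i | i) (j | j) hij
    · change ⟪(inj1 (b i) : KK H), inj1 (b j)⟫_ℝ = 0
      rw [kkinner, P1_inj1, P2_inj1, inner_zero_left, add_zero, P1_inj1]
      refine b.orthonormal.2 fun h => hij ?_
      rw [Subtype.ext h]
    · change ⟪(inj1 (b i) : KK H), inj (b j)⟫_ℝ = 0
      rw [kkinner, P1_inj1, P2_inj1, inner_zero_left, add_zero, P1_inj, inner_zero_right]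
    · change ⟪(inj (b i) : KK H), inj1 (b j)⟫_ℝ = 0
      rw [kkinner, P1_inj, inner_zero_left, zero_add, P2_inj1, inner_zero_right]
    · change ⟪(inj (b i) : KK H), inj (b j)⟫_ℝ = 0
      rw [kkinner, P1_inj, inner_zero_left, zero_add, P2_inj, P2_inj]
      refine b.orthonormal.2 fun h => hij ?_
      rw [Subtype.ext h]

theorem ff_sum (b : HilbertBasis κ ℝ H) (J : Finset κ) (z : KK H) :
    ∑ s : J ⊕ J, ⟪ff b J s, z⟫_ℝ • ff b J s = PK b J z := by
  rw [Fintype.sum_sum_type]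
  have h1 : ∀ j : J, ⟪ff b J (Sum.inl j), z⟫_ℝ = ⟪b j, P1 z⟫_ℝ := by
    intro j
    change ⟪(inj1 (b j) : KK H), z⟫_ℝ = _
    rw [kkinner, P1_inj1, P2_inj1, inner_zero_left, add_zero]
  have h2 : ∀ j : J, ⟪ff b J (Sum.inr j), z⟫_ℝ = ⟪b j, P2 z⟫_ℝ := by
    intro j
    change ⟪(inj (b j) : KK H), z⟫_ℝ = _
    rw [kkinner, P1_inj, P2_inj, inner_zero_left, zero_add]
  simp only [h1, h2]
  apply kkext
  · rw [P1_PK, PJ_apply, map_add, map_sum, map_sum]
    have h3 : ∀ j : J, P1 (⟪b j, P1 z⟫_ℝ • ff b J (Sum.inl j)) = ⟪b j, P1 z⟫_ℝ • b j := by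
      intro j
      rw [map_smul]
      rfl
    have h4 : ∀ j : J, P1 (⟪b j, P2 z⟫_ℝ • ff b J (Sum.inr j)) = 0 := by
      intro j
      rw [map_smul]
      exact smul_zero _
    simp only [h3, h4, Finset.sum_const_zero, add_zero]
    exact Finset.sum_coe_sort J fun j => ⟪b j, P1 z⟫_ℝ • b j
  · rw [P2_PK, PJ_apply, map_add, map_sum, map_sum]
    have h3 : ∀ j : J, P2 (⟪b j, P1 z⟫_ℝ • ff b J (Sum.inl j)) = 0 := by
      intro j
      rw [map_smul]
      exact smul_zero _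
    have h4 : ∀ j : J, P2 (⟪b j, P2 z⟫_ℝ • ff b J (Sum.inr j)) = ⟪b j, P2 z⟫_ℝ • b j := by
      intro j
      rw [map_smul]
      rfl
    simp only [h3, h4, Finset.sum_const_zero, zero_add]
    exact Finset.sum_coe_sort J fun j => ⟪b j, P2 z⟫_ℝ • b j

/-- the isometry -/
def ee (b : HilbertBasis κ ℝ H) (J : Finset κ) (σ : Fin (2 * J.card) ≃ J ⊕ J) :
    EuclideanSpace ℝ (Fin (2 * J.card)) →ₗᵢ[ℝ] KK H where
  toFun c := ∑ k, c k • ff b J (σ k)
  map_add' c d := by
    rw [← Finset.sum_add_distrib]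
    refine Finset.sum_congr rfl fun k _ => ?_
    rw [← add_smul]
    rfl
  map_smul' r c := by
    rw [Finset.smul_sum]
    refine Finset.sum_congr rfl fun k _ => ?_
    rw [smul_smul]
    rfl
  norm_map' c := by
    have ho : Orthonormal ℝ fun k => ff b J (σ k) := (ff_orth b J).comp σ σ.injective
    have h1 := ho.inner_sum (fun k => c k) (fun k => c k) Finset.univ
    change ‖∑ k, c k • ff b J (σ k)‖ = ‖c‖
    have h2 : ‖∑ k, c k • ff b J (σ k)‖ ^ 2 = ‖c‖ ^ 2 := by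
      rw [← real_inner_self_eq_norm_sq, h1, EuclideanSpace.norm_sq_eq]
      refine Finset.sum_congr rfl fun k _ => ?_
      rw [Real.norm_eq_abs, sq_abs, sq]
      rfl
    exact (pow_left_inj₀ (norm_nonneg _) (norm_nonneg _) two_ne_zero).1 h2

theorem ee_apply (b : HilbertBasis κ ℝ H) (J : Finset κ) (σ : Fin (2 * J.card) ≃ J ⊕ J)
    (c : EuclideanSpace ℝ (Fin (2 * J.card))) : ee b J σ c = ∑ k, c k • ff b J (σ k) := rfl

theorem ee_basis (b : HilbertBasis κ ℝ H) (J : Finset κ) (σ : Fin (2 * J.card) ≃ J ⊕ J)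
    (k : Fin (2 * J.card)) :
    ee b J σ (EuclideanSpace.basisFun (Fin (2 * J.card)) ℝ k) = ff b J (σ k) := by
  classical
  rw [ee_apply, Finset.sum_eq_single k]
  · rw [EuclideanSpace.basisFun_apply, PiLp.single_apply, if_pos rfl, one_smul]
  · intro l _ hl
    rw [EuclideanSpace.basisFun_apply, PiLp.single_apply, if_neg hl, zero_smul]
  · intro h
    exact absurd (Finset.mem_univ k) h

theorem ee_coord (b : HilbertBasis κ ℝ H) (J : Finset κ) (σ : Fin (2 * J.card) ≃ J ⊕ J)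
    (z : KK H) : ee b J σ (WithLp.toLp 2 fun k => ⟪ff b J (σ k), z⟫_ℝ) = PK b J z := by
  rw [ee_apply, ← ff_sum]
  exact Equiv.sum_comp σ fun s => ⟪ff b J s, z⟫_ℝ • ff b J s

theorem PK_ee (b : HilbertBasis κ ℝ H) (J : Finset κ) (σ : Fin (2 * J.card) ≃ J ⊕ J)
    (c : EuclideanSpace ℝ (Fin (2 * J.card))) : PK b J (ee b J σ c) = ee b J σ c := by
  rw [← ee_coord b J σ]
  congr 1
  have ho : Orthonormal ℝ fun k => ff b J (σ k) := (ff_orth b J).comp σ σ.injective
  ext k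
  change ⟪ff b J (σ k), ∑ k, c k • ff b J (σ k)⟫_ℝ = c k
  exact ho.inner_right_fintype (fun k => c k) k

theorem ee_range (b : HilbertBasis κ ℝ H) (J : Finset κ) (σ : Fin (2 * J.card) ≃ J ⊕ J)
    (z : KK H) : PK b J z = z ↔ ∃ c, ee b J σ c = z := by
  constructor
  · intro h
    exact ⟨_, (ee_coord b J σ z).trans h⟩
  · rintro ⟨c, rfl⟩
    exact PK_ee b J σ c

/-- the free group on the basis vectors -/
theorem W_inl (b : HilbertBasis κ ℝ H) (om : κ → ℝ) (W : ℝ → KK H →L[ℝ] KK H)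
    (hW : Grp b om W) (t : ℝ) (j : κ) :
    P2 (W t (inj1 (b j))) = (-Real.sin (om j * t)) • b j := by
  classical
  apply eq_of_coord b
  intro i
  rw [hW.c2, P1_inj1, P2_inj1, inner_zero_right, mul_zero, add_zero, inner_smul_right]
  rw [binner b i j]
  by_cases h : i = j
  · rw [h]
  · rw [if_neg h, mul_zero, mul_zero]

theorem W_inr (b : HilbertBasis κ ℝ H) (om : κ → ℝ) (W : ℝ → KK H →L[ℝ] KK H)
    (hW : Grp b om W) (t : ℝ) (j : κ) :
    P2 (W t (inj (b j))) = Real.cos (om j * t) • b j := by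
  classical
  apply eq_of_coord b
  intro i
  rw [hW.c2, P1_inj, P2_inj, inner_zero_right, mul_zero, zero_add, inner_smul_right]
  rw [binner b i j]
  by_cases h : i = j
  · rw [h]
  · rw [if_neg h, mul_zero, mul_zero]

end

end

end Pool.Agent.BEL.H7
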