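import Pool.Agent.Helper7_BEL.GalA

/-!
# Squad BEL, row GAL, part B: the operators `B t` (helper7)
-/

set_option autoImplicit false

namespace Pool.Agent.BEL.H7

open MeasureTheory Filter Topology Set
open scoped InnerProductSpace ENNReal

noncomputable section

section
variable {H : Type} [NormedAddCommGroup H] [InnerProductSpace ℝ H] [CompleteSpace H] {κ : Type}

/-- the coefficient of the linearized equation in the coordinates -/
def Bt (b : HilbertBasis κ ℝ H) (J : Finset κ) (σ : Fin (2 * J.card) ≃ J ⊕ J)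
    (W : ℝ → KK H →L[ℝ] KK H) (T : H →L[ℝ] H) (t : ℝ) :
    EuclideanSpace ℝ (Fin (2 * J.card)) →L[ℝ] EuclideanSpace ℝ (Fin (2 * J.card)) :=
  (ContinuousLinearMap.adjoint (ee b J σ).toContinuousLinearMap) ∘L (W (-t)) ∘L inj ∘L T ∘L
    P2 ∘L (W t) ∘L (ee b J σ).toContinuousLinearMap

theorem Bt_inner (b : HilbertBasis κ ℝ H) (J : Finset κ) (σ : Fin (2 * J.card) ≃ J ⊕ J)
    (W : ℝ → KK H →L[ℝ] KK H) (T : H →L[ℝ] H) (t : ℝ)
    (hadj : ∀ (t : ℝ) (z w : KK H), ⟪W t z, w⟫_ℝ = ⟪z, W (-t) w⟫_ℝ)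
    (hinj : ∀ (h : H) (z : KK H), ⟪inj h, z⟫_ℝ = ⟪h, P2 z⟫_ℝ)
    (x y : EuclideanSpace ℝ (Fin (2 * J.card))) :
    ⟪Bt b J σ W T t x, y⟫_ℝ = ⟪T (P2 (W t (ee b J σ x))), P2 (W t (ee b J σ y))⟫_ℝ := by
  change ⟪ContinuousLinearMap.adjoint (ee b J σ).toContinuousLinearMap
    (W (-t) (inj (T (P2 (W t (ee b J σ x)))))), y⟫_ℝ = _
  rw [ContinuousLinearMap.adjoint_inner_left]
  change ⟪W (-t) (inj (T (P2 (W t (ee b J σ x))))), ee b J σ y⟫_ℝ = _
  rw [hadj, neg_neg, hinj]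

theorem ee_adj (b : HilbertBasis κ ℝ H) (J : Finset κ) (σ : Fin (2 * J.card) ≃ J ⊕ J)
    (z : KK H) :
    ee b J σ (ContinuousLinearMap.adjoint (ee b J σ).toContinuousLinearMap z) = PK b J z := by
  rw [← ee_coord b J σ z]
  congr 1
  refine ext_inner_left ℝ fun c => ?_
  rw [ContinuousLinearMap.adjoint_inner_right]
  change ⟪∑ k, c k • ff b J (σ k), z⟫_ℝ = _
  rw [sum_inner, PiLp.inner_apply]
  refine Finset.sum_congr rfl fun k _ => ?_
  rw [real_inner_smul_left]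
  exact mul_comm _ _

theorem ee_Bt (b : HilbertBasis κ ℝ H) (J : Finset κ) (σ : Fin (2 * J.card) ≃ J ⊕ J)
    (W : ℝ → KK H →L[ℝ] KK H) (T : H →L[ℝ] H) (t : ℝ)
    (y : EuclideanSpace ℝ (Fin (2 * J.card))) :
    ee b J σ (Bt b J σ W T t y) = PK b J (W (-t) (inj (T (P2 (W t (ee b J σ y)))))) :=
  ee_adj b J σ _

theorem Bt_trace (b : HilbertBasis κ ℝ H) (om : κ → ℝ) (J : Finset κ)
    (σ : Fin (2 * J.card) ≃ J ⊕ J) (W : ℝ → KK H →L[ℝ] KK H) (T : H →L[ℝ] H) (t : ℝ)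
    (hW : Grp b om W)
    (hadj : ∀ (t : ℝ) (z w : KK H), ⟪W t z, w⟫_ℝ = ⟪z, W (-t) w⟫_ℝ)
    (hinj : ∀ (h : H) (z : KK H), ⟪inj h, z⟫_ℝ = ⟪h, P2 z⟫_ℝ) :
    LinearMap.trace ℝ (EuclideanSpace ℝ (Fin (2 * J.card)))
      (Bt b J σ W T t : EuclideanSpace ℝ (Fin (2 * J.card)) →ₗ[ℝ]
        EuclideanSpace ℝ (Fin (2 * J.card))) = ∑ j ∈ J, ⟪T (b j), b j⟫_ℝ := by
  rw [LinearMap.trace_eq_sum_inner _ (EuclideanSpace.basisFun (Fin (2 * J.card)) ℝ)]
  have h1 : ∀ k : Fin (2 * J.card), ⟪EuclideanSpace.basisFun (Fin (2 * J.card)) ℝ k,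
      (Bt b J σ W T t : EuclideanSpace ℝ (Fin (2 * J.card)) →ₗ[ℝ]
        EuclideanSpace ℝ (Fin (2 * J.card))) (EuclideanSpace.basisFun (Fin (2 * J.card)) ℝ k)⟫_ℝ =
      ⟪T (P2 (W t (ff b J (σ k)))), P2 (W t (ff b J (σ k)))⟫_ℝ := by
    intro k
    rw [real_inner_comm]
    change ⟪Bt b J σ W T t (EuclideanSpace.basisFun (Fin (2 * J.card)) ℝ k),
      EuclideanSpace.basisFun (Fin (2 * J.card)) ℝ k⟫_ℝ = _
    rw [Bt_inner b J σ W T t hadj hinj, ee_basis]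
  rw [Finset.sum_congr rfl fun k _ => h1 k,
    Equiv.sum_comp σ fun s => ⟪T (P2 (W t (ff b J s))), P2 (W t (ff b J s))⟫_ℝ,
    Fintype.sum_sum_type, ← Finset.sum_add_distrib]
  have h2 : ∀ j : J, ⟪T (P2 (W t (ff b J (Sum.inl j)))), P2 (W t (ff b J (Sum.inl j)))⟫_ℝ +
      ⟪T (P2 (W t (ff b J (Sum.inr j)))), P2 (W t (ff b J (Sum.inr j)))⟫_ℝ =
      ⟪T (b j), b j⟫_ℝ := by
    intro j
    have e1 : P2 (W t (ff b J (Sum.inl j))) = (-Real.sin (om j * t)) • b j :=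
      W_inl b om W hW t j
    have e2 : P2 (W t (ff b J (Sum.inr j))) = Real.cos (om j * t) • b j :=
      W_inr b om W hW t j
    rw [e1, e2, map_smul, map_smul, real_inner_smul_left, real_inner_smul_left,
      real_inner_smul_right, real_inner_smul_right]
    have h3 := Real.sin_sq_add_cos_sq (om j * t)
    linear_combination ⟪T (b j), b j⟫_ℝ * h3
  rw [Finset.sum_congr rfl fun j _ => h2 j]
  exact Finset.sum_coe_sort J fun j => ⟪T (b j), b j⟫_ℝ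

/-- continuity in the operator norm from the continuity of the quadratic forms -/
theorem continuous_of_quad {n : ℕ}
    (B : ℝ → EuclideanSpace ℝ (Fin n) →L[ℝ] EuclideanSpace ℝ (Fin n))
    (hs : ∀ t x y, ⟪B t x, y⟫_ℝ = ⟪x, B t y⟫_ℝ)
    (hq : ∀ x, Continuous fun t => ⟪B t x, x⟫_ℝ) : Continuous B := by
  rw [continuous_clm_apply]
  intro x
  have h1 : ∀ y, Continuous fun t => ⟪B t x, y⟫_ℝ := by
    intro y
    have h2 : (fun t => ⟪B t x, y⟫_ℝ) = fun t =>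
        (⟪B t (x + y), x + y⟫_ℝ - ⟪B t (x - y), x - y⟫_ℝ) / 4 := by
      funext t
      rw [map_add, map_sub, inner_add_left, inner_add_right, inner_add_right, inner_sub_left,
        inner_sub_right, inner_sub_right, hs t y x, real_inner_comm (B t x) y]
      ring
    rw [h2]
    exact ((hq _).sub (hq _)).div_const 4
  have h3 : (fun t => B t x) = fun t => ∑ k, ⟪EuclideanSpace.basisFun (Fin n) ℝ k, B t x⟫_ℝ •
      EuclideanSpace.basisFun (Fin n) ℝ k := by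
    funext t
    exact ((EuclideanSpace.basisFun (Fin n) ℝ).sum_repr' (B t x)).symm
  rw [h3]
  refine continuous_finsetSum _ fun k _ => ?_
  have h4 : Continuous fun t => ⟪EuclideanSpace.basisFun (Fin n) ℝ k, B t x⟫_ℝ :=
    (h1 (EuclideanSpace.basisFun (Fin n) ℝ k)).congr fun t => real_inner_comm _ _
  exact h4.smul continuous_const

end

end

end Pool.Agent.BEL.H7
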